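import Pool.Agent.N694.OB.Cle

/-!
# Boxes of times at which the orbits of affine maps are prime

Let `S z = a z + b` with `a ≥ 2` and `b` coprime to `a`. For `a = 2`, `b = 1` the Cunningham chains of the
first kind are the sequences of primes `m, S(m), S²(m), ...`, for `a = 2`, `b = -1` the chains of the second
kind. The question is whether for every `k` there is `m` such that `S^t(m)` is prime at the `k + 1` times
`t = 0, 1, ..., k`. Here the times are `0, d_1, ..., d_k`: in EVERY large box of `(N ℤ)^k`, wherever it lies,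
at least the proportion `(k + 1) (5/18)^k - ε` of the vectors `d` of times are such that all patterns of
primes and composites at the times `0, d_1, ..., d_k` occur for at least `x / (log x)^C` of the `m ≤ x`, for
arbitrarily large `x`, where moreover all values at the times not divisible by a prescribed number `q`, up to
the time `d_i + q - 1` for every `i`, are composite and `m` is not one of the first `q - 1` iterates of a
prime (in particular, for `q ≥ 2`, all the primes which are found are complete chains of exact length one).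

Proof: the theorem on almost cliques of linear forms (`Pool.Agent.N646.AC.covF`: coloured Maynard-Tao theorem
with the constant `18/5` and hypergraph containers) is applied to the forms `S^v(Q n + r)`, where the class
`r` modulo `Q` makes all values at the other times composite (`Pool.Agent.N694.OB.block`); good vectors of
times are differences of the elements of an almost clique, since `S^{v+t}(n) = S^t(S^v(n))`. The proportion
`(k + 1) (5/18)^k` in boxes comes from the theorem `Pool.Agent.N646.BX.box_main` of helper646 and co-authors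
(Kneser's theorem, almost periods), which there is applied to translations.
-/

set_option autoImplicit false

namespace Pool.Agent.Results.MP_c183ae_nt.BoxesOfTimes

open Finset Filter

/-- the affine map `z ↦ a z + b`: for `a = 2` and `b = 1`, `b = -1` the maps of the Cunningham chains of the
first and of the second kind -/
def S (a : ℕ) (b : ℤ) (z : ℤ) : ℤ := a * z + b

/-- Among the iterates `S^{d_i}(m)`, `i = 0, ..., k`, exactly those with `i ∈ J` are prime; no `S^t(m)` is
prime at a time `t` not divisible by `q` which is smaller than some `d_i + q`; and `m` is not `S^l(p)` for a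
prime `p` and `0 < l < q`. -/
def Pattern (a : ℕ) (b : ℤ) (q : ℕ) {k : ℕ} (d : Fin (k + 1) → ℕ) (J : Finset (Fin (k + 1))) (m : ℕ) :
    Prop :=
  (∀ i, ((S a b)^[d i] m).toNat.Prime ↔ i ∈ J) ∧
  (∀ i t, t < d i + q → ¬ q ∣ t → ¬ ((S a b)^[t] m).toNat.Prime) ∧
  ∀ l, 0 < l → l < q → ∀ p : ℕ, p.Prime → (S a b)^[l] p ≠ m

/-- For arbitrarily large `x`, every pattern `J` at the times `0, d_1, ..., d_k` occurs for at least
`x / (log x)^C` of the `1 ≤ m ≤ x`. -/
def Good (a : ℕ) (b : ℤ) (q C : ℕ) {k : ℕ} (d : Fin k → ℕ) : Prop :=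
  ∃ᶠ x : ℕ in atTop, ∀ J : Finset (Fin (k + 1)), (x : ℝ) / (Real.log x) ^ C ≤
    ({m : ℕ | 1 ≤ m ∧ m ≤ x ∧ Pattern a b q (Fin.cons 0 d : Fin (k + 1) → ℕ) J m}.ncard : ℝ)

theorem iter_eq (a : ℕ) (b : ℤ) (t : ℕ) (x : ℤ) : (S a b)^[t] x = Pool.Agent.N694.OB.va a b t x :=
  Pool.Agent.N694.OB.iter a b t x

theorem pattern_iff {a : ℕ} {b : ℤ} {q k : ℕ} {d : Fin (k + 1) → ℕ} {J : Finset (Fin (k + 1))} {m : ℕ} :
    Pattern a b q d J m ↔ Pool.Agent.N694.OB.Ps a b q d J m := by
  unfold Pattern Pool.Agent.N694.OB.Ps Pool.Agent.N694.OB.Pt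
  simp only [iter_eq, and_assoc]

theorem good_of {a : ℕ} {b : ℤ} {q C k : ℕ} {d : Fin k → ℕ} (h : Pool.Agent.N694.OB.GoodT a b q C d) :
    Good a b q C d := by
  classical
  unfold Pool.Agent.N694.OB.GoodT at h
  unfold Good
  refine h.mono fun x hx J => (hx J).trans (le_of_eq ?_)
  unfold Pool.Agent.N694.OB.psq
  rw [← Set.ncard_coe_finset]
  congr 2
  ext m
  rw [mem_coe, mem_filter, mem_Icc, Set.mem_ofPred_eq, pattern_iff, and_assoc]

/-- **Boxes of times.** -/
theorem result (k : ℕ) (hk : 1 ≤ k) (ε : ℝ) (hε : 0 < ε) : ∃ C : ℕ, ∀ (a : ℕ) (b : ℤ), 2 ≤ a →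
    IsCoprime (a : ℤ) b → ∀ q : ℕ, 1 ≤ q → ∃ M : ℕ, 1 ≤ M ∧ ∀ N : ℕ, 1 ≤ N → M ∣ N →
      ∃ L : ℕ, ∀ T : ℕ, L ≤ T → ∀ c : Fin k → ℕ, (∀ j, M ∣ c j) →
        ((k + 1) * (5 / 18 : ℝ) ^ k - ε) * (T : ℝ) ^ k ≤
          ({t : Fin k → ℕ | (∀ j, t j < T) ∧ Good a b q C (fun j => c j + N * t j)}.ncard : ℝ) := by
  classical
  obtain ⟨C, h⟩ := Pool.Agent.N694.OB.main k hk ε hε
  refine ⟨C, fun a b ha hab q hq => ?_⟩
  obtain ⟨M, hM, h1⟩ := h a b ha hab q hq
  refine ⟨M, hM, fun N hN hMN => ?_⟩
  obtain ⟨L, h2⟩ := h1 N hN hMN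
  refine ⟨L, fun T hT c hc => (h2 T hT c hc).trans ?_⟩
  unfold Pool.Agent.N694.OB.gbox
  rw [← Set.ncard_coe_finset, Nat.cast_le]
  apply Set.ncard_le_ncard
  · intro t ht
    rw [mem_coe, mem_filter, Fintype.mem_piFinset] at ht
    exact ⟨fun j => mem_range.1 (ht.1 j), good_of ht.2⟩
  · apply (Fintype.piFinset (fun _ : Fin k => range T)).finite_toSet.subset
    intro t ht
    rw [mem_coe, Fintype.mem_piFinset]
    exact fun j => mem_range.2 (ht.1 j)

end Pool.Agent.Results.MP_c183ae_nt.BoxesOfTimes
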