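import Mathlib
import Pool.Agent.N957.SQ.Sys4

/-!
# Cunningham chains in the sieved sequential random models of the primes

The integers are decided one after the other; the multiples of the primes of a finite set `Q` are never
chosen and the conditional probability of choosing an integer `n + 1` which is not such a multiple,
given the decisions up to `n`, is asymptotic to `∏_{p ∈ Q} (1 - 1 / p)⁻¹ / log n`, almost surely.  No
independence and no rate of convergence are assumed.

In every such model, almost surely, for all `k ≥ 1` and both kinds, there are infinitely many Cunningham chains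
of length `k`; the number of those starting below `x` is asymptotic to `C x / log ^ k x` and the largest gaps
between the successive starting points are exactly of size `(1 / C) log ^ (k + 1)`.  The same holds for all
systems of `k` integer polynomials, no two of which have the same degree and the same leading coefficient.
-/

set_option autoImplicit false

open MeasureTheory Filter Set ProbabilityTheory Polynomial
open scoped Topology

namespace Pool.Agent.Results.MP_c183ae_nt.ChainGapsSievedModels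

variable {Ω : Type}

/-- `A n` is the event that `n` is chosen; adapted to `ℱ`; multiples of the primes in `Q` are not
chosen; the conditional probability of `A (n + 1)` given `ℱ n`, times `log n`, tends almost surely to
`∏_{p ∈ Q} (1 - 1 / p)⁻¹` along the `n` such that no `p ∈ Q` divides `n + 1` -/
def SievedModel [m : MeasurableSpace Ω] (μ : Measure Ω) (ℱ : Filtration ℕ m) (A : ℕ → Set Ω)
    (Q : Finset ℕ) : Prop :=
  (∀ n, MeasurableSet[ℱ n] (A n)) ∧ (∀ n, (∃ p ∈ Q, p ∣ n) → A n = ∅) ∧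
  ∀ᵐ ω ∂μ, Tendsto (fun n : ℕ => (μ[(A (n + 1)).indicator (fun _ => (1 : ℝ)) | ℱ n]) ω * Real.log n)
    (atTop ⊓ 𝓟 {n : ℕ | ∀ p ∈ Q, ¬ p ∣ n + 1}) (𝓝 (∏ p ∈ Q, (1 - 1 / (p : ℝ))⁻¹))

/-- The independent sieved model: independent events, no multiple of a `p ∈ Q` is chosen, all other large `n` are
chosen with probability `∏_{p ∈ Q} (1 - 1 / p)⁻¹ / log n`. -/
def IndependentModel [MeasurableSpace Ω] (μ : Measure Ω) (A : ℕ → Set Ω) (Q : Finset ℕ) : Prop :=
  (∀ n, MeasurableSet (A n)) ∧ iIndepSet A μ ∧ (∀ n, (∃ p ∈ Q, p ∣ n) → A n = ∅) ∧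
  ∀ᶠ n : ℕ in atTop, (∀ p ∈ Q, ¬ p ∣ n) → μ (A n) = ENNReal.ofReal ((∏ p ∈ Q, (1 - 1 / (p : ℝ))⁻¹) / Real.log n)

open Classical in
/-- The random sieve of Hawkins: `2` is chosen, and given the decisions up to `n ≥ 2` the number
`n + 1` is chosen with probability `∏ (1 - 1 / h)`, the product over the chosen `2 ≤ h ≤ n`. -/
def HawkinsSieve [m : MeasurableSpace Ω] (μ : Measure Ω) (ℱ : Filtration ℕ m) (A : ℕ → Set Ω) : Prop :=
  (∀ n, MeasurableSet[ℱ n] (A n)) ∧ A 2 = univ ∧
  ∀ n, 2 ≤ n → μ[(A (n + 1)).indicator (fun _ => (1 : ℝ)) | ℱ n] =ᵐ[μ]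
    fun ω => ∏ h ∈ Finset.Icc 2 n, if ω ∈ A h then 1 - 1 / (h : ℝ) else 1

/-- The set of the `n` at which the values of all polynomials of the system `P` are in `S`. -/
def args (S : Set ℕ) (P : Finset ℤ[X]) : Set ℕ := {n | ∀ f ∈ P, ∃ a ∈ S, (a : ℤ) = f.eval (n : ℤ)}

/-- The number of `0 ≤ r < p` with `p ∣ ∏ f(r)`, the product over the system. -/
noncomputable def omega (P : Finset ℤ[X]) (p : ℕ) : ℕ := {r : ℕ | r < p ∧ (p : ℤ) ∣ ∏ f ∈ P, f.eval (r : ℤ)}.ncard

/-- The constant of Bateman and Horn of the system, with the product restricted to the primes of `Q`. -/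
noncomputable def const (Q : Finset ℕ) (P : Finset ℤ[X]) : ℝ :=
  (∏ p ∈ Q, (1 - (omega P p : ℝ) / p) / (1 - 1 / (p : ℝ)) ^ P.card) * ∏ f ∈ P, ((f.natDegree : ℝ))⁻¹

/-- No two polynomials of the system have the same degree and the same leading coefficient; the degrees and the
leading coefficients are positive. -/
def Separated (P : Finset ℤ[X]) : Prop :=
  (∀ f ∈ P, 0 < f.natDegree ∧ 0 < f.leadingCoeff) ∧
  ∀ f ∈ P, ∀ g ∈ P, f.natDegree = g.natDegree → f.leadingCoeff = g.leadingCoeff → f = g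

/-- The starting points `n` of the chains of length `k` with all members in `S`: for `s = 1` chains of the first
kind, with the members `2 ^ i (n + 1) - 1`, `i < k`; for `s = -1` chains of the second kind, with the members
`2 ^ i (n - 1) + 1`. -/
def chains (S : Set ℕ) (s : ℤ) (k : ℕ) : Set ℕ := {n | ∀ i < k, ∃ a ∈ S, (a : ℤ) = 2 ^ i * ((n : ℤ) + s) - s}

/-- The number of `0 ≤ r < p` for which `p` divides some `2 ^ i (r + s) - s`, `i < k`. -/
noncomputable def omegaC (s : ℤ) (k p : ℕ) : ℕ :=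
  {r : ℕ | r < p ∧ ∃ i < k, (p : ℤ) ∣ 2 ^ i * ((r : ℤ) + s) - s}.ncard

/-- The constant for chains of length `k`. -/
noncomputable def constC (Q : Finset ℕ) (s : ℤ) (k : ℕ) : ℝ :=
  ∏ p ∈ Q, (1 - (omegaC s k p : ℝ) / p) / (1 - 1 / (p : ℝ)) ^ k

/-- The member number `j` (from zero) of a set of natural numbers. -/
noncomputable def member (K : Set ℕ) (j : ℕ) : ℕ := Nat.nth (· ∈ K) j

/-- The laws for a random set `K` of natural numbers: with `k_0 < k_1 < ...` its members,
the number of members below `x` is asymptotic to `C x / log ^ k x`, and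
`limsup (k_(j+1) - k_j) / log ^ (k + 1) k_j = 1 / C`. -/
def Laws (K : Set ℕ) (k : ℕ) (C : ℝ) : Prop :=
  0 < C ∧ K.Infinite ∧ Tendsto (fun x : ℕ => ({n : ℕ | n < x ∧ n ∈ K}.ncard : ℝ) * Real.log x ^ k / x) atTop (𝓝 C) ∧
  ∀ ε : ℝ, 0 < ε →
    (∀ᶠ j : ℕ in atTop, (member K (j + 1) : ℝ) - member K j ≤ (1 / C + ε) * Real.log (member K j) ^ (k + 1)) ∧
    ∃ᶠ j : ℕ in atTop, (1 / C - ε) * Real.log (member K j) ^ (k + 1) ≤ (member K (j + 1) : ℝ) - member K j

open Pool.Agent.N740.HK Pool.Agent.R528.RM Pool.Agent.N285.GP Pool.Agent.N957.SQ.Sy Pool.Agent.N957.SQ.Fin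

/-- the member number `i` of the chain as a polynomial -/
noncomputable def lin (s : ℤ) (i : ℕ) : ℤ[X] := C (2 ^ i) * X + C ((2 ^ i - 1) * s)

lemma lin_eval (s : ℤ) (i : ℕ) (n : ℤ) : (lin s i).eval n = 2 ^ i * (n + s) - s := by
  unfold lin
  simp only [eval_add, eval_mul, eval_C, eval_X]
  ring

lemma lin_deg (s : ℤ) (i : ℕ) : (lin s i).natDegree = 1 := by
  unfold lin
  exact natDegree_linear (by positivity)

lemma lin_lead (s : ℤ) (i : ℕ) : (lin s i).leadingCoeff = 2 ^ i := by
  unfold lin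
  exact leadingCoeff_linear (by positivity)

open Classical in
/-- the system of the chain -/
noncomputable def sys (s : ℤ) (k : ℕ) : Finset ℤ[X] := (Finset.range k).image (lin s)

lemma lin_inj (s : ℤ) : Function.Injective (lin s) := by
  intro i j h
  have h1 := lin_lead s i
  rw [h, lin_lead] at h1
  exact (Nat.pow_right_injective (le_refl 2) (by exact_mod_cast h1)).symm

lemma sys_card (s : ℤ) (k : ℕ) : (sys s k).card = k := by
  classical
  unfold sys
  rw [Finset.card_image_of_injective _ (lin_inj s), Finset.card_range]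

lemma mem_sys {s : ℤ} {k : ℕ} {f : ℤ[X]} : f ∈ sys s k ↔ ∃ i < k, lin s i = f := by
  classical
  unfold sys
  simp only [Finset.mem_image, Finset.mem_range]

lemma sys_sep (s : ℤ) (k : ℕ) : Sep (sys s k) := by
  constructor
  · intro f hf
    obtain ⟨i, _, rfl⟩ := mem_sys.1 hf
    rw [lin_deg, lin_lead]
    exact ⟨one_pos, by positivity⟩
  · intro f hf g hg _ h
    obtain ⟨i, _, rfl⟩ := mem_sys.1 hf
    obtain ⟨j, _, rfl⟩ := mem_sys.1 hg
    rw [lin_lead, lin_lead] at h
    have : i = j := Nat.pow_right_injective (le_refl 2) (by exact_mod_cast h)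
    rw [this]

lemma sys_args (S : Set ℕ) (s : ℤ) (k : ℕ) : argsP S (sys s k) = chains S s k := by
  ext n
  unfold argsP chains
  simp only [mem_ofPred_eq]
  constructor
  · intro h i hi
    have := h (lin s i) (mem_sys.2 ⟨i, hi, rfl⟩)
    rwa [lin_eval] at this
  · intro h f hf
    obtain ⟨i, hi, rfl⟩ := mem_sys.1 hf
    rw [lin_eval]
    exact h i hi

lemma sys_omega (s : ℤ) (k : ℕ) {p : ℕ} (hp : p.Prime) : omegaF (sys s k) p = omegaC s k p := by
  classical
  unfold omegaF omegaC
  congr 1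
  ext r
  simp only [mem_ofPred_eq]
  have hpi : Prime (p : ℤ) := Nat.prime_iff_prime_int.1 hp
  rw [hpi.dvd_finsetProd_iff]
  refine and_congr_right fun _ => ?_
  constructor
  · rintro ⟨f, hf, hd⟩
    obtain ⟨i, hi, rfl⟩ := mem_sys.1 hf
    rw [lin_eval] at hd
    exact ⟨i, hi, hd⟩
  · rintro ⟨i, hi, hd⟩
    exact ⟨lin s i, mem_sys.2 ⟨i, hi, rfl⟩, by rw [lin_eval]; exact hd⟩

lemma sys_const (Q : Finset ℕ) (hQ : ∀ p ∈ Q, p.Prime) (s : ℤ) (k : ℕ) : BC Q (sys s k) = constC Q s k := by
  unfold BC constC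
  have h1 : ∏ f ∈ sys s k, ((f.natDegree : ℝ))⁻¹ = 1 := by
    refine Finset.prod_eq_one fun f hf => ?_
    obtain ⟨i, _, rfl⟩ := mem_sys.1 hf
    rw [lin_deg]
    norm_num
  rw [h1, mul_one, sys_card]
  refine Finset.prod_congr rfl fun p hp => ?_
  rw [sys_omega s k (hQ p hp)]

lemma sys_fixed (Q : Finset ℕ) (hQ : ∀ p ∈ Q, p.Prime) {s : ℤ} (hs : s = 1 ∨ s = -1) (k : ℕ) :
    ∀ p ∈ Q, ∃ r : ℤ, ¬ (p : ℤ) ∣ ∏ f ∈ sys s k, f.eval r := by
  classical
  intro p hp
  refine ⟨-s, fun h => ?_⟩
  have hpi : Prime (p : ℤ) := Nat.prime_iff_prime_int.1 (hQ p hp)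
  rw [hpi.dvd_finsetProd_iff] at h
  obtain ⟨f, hf, hd⟩ := h
  obtain ⟨i, _, rfl⟩ := mem_sys.1 hf
  rw [lin_eval] at hd
  have e : 2 ^ i * (-s + s) - s = -s := by ring
  rw [e, dvd_neg] at hd
  have h2 : (p : ℤ) ∣ 1 := by
    rcases hs with rfl | rfl
    · exact hd
    · simpa using hd
  have h3 : p ∣ 1 := by exact_mod_cast h2
  exact (hQ p hp).one_lt.ne' (Nat.dvd_one.1 h3)

end Pool.Agent.Results.MP_c183ae_nt.ChainGapsSievedModels

open Pool.Agent.Results.MP_c183ae_nt.ChainGapsSievedModels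

/-- The independent sieved model is a sieved model for some filtration, and the random sieve of Hawkins is one with
`Q = ∅`.  In every sieved model, almost surely: (1) for all `k ≥ 1` and both kinds (`s = 1`, `s = -1`), with
`C > 0` the constant `constC Q s k`: there are infinitely many Cunningham chains of length `k` all of whose members
are chosen, the number of those starting below `x` is asymptotic to `C x / log ^ k x`, and the largest gaps between
successive starting points are of size `(1 / C) log ^ (k + 1)`; (2) the same for every nonempty system of `k` integer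
polynomials of positive degrees with positive leading coefficients, no two of the same degree and leading
coefficient, whose product has no fixed divisor in `Q`, with the Bateman-Horn constant restricted to `Q`. -/
theorem Pool.Agent.Results.MP_c183ae_nt.ChainGapsSievedModels.result
    {Ω : Type} [m : MeasurableSpace Ω] (μ : Measure Ω) [IsProbabilityMeasure μ] (A : ℕ → Set Ω)
    (Q : Finset ℕ) (hQ : ∀ p ∈ Q, p.Prime) :
    (IndependentModel μ A Q → ∃ ℱ : Filtration ℕ m, SievedModel μ ℱ A Q) ∧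
    ∀ ℱ : Filtration ℕ m,
    (HawkinsSieve μ ℱ A → SievedModel μ ℱ A ∅) ∧
    (SievedModel μ ℱ A Q → ∀ᵐ ω ∂μ,
      (∀ s : ℤ, s = 1 ∨ s = -1 → ∀ k : ℕ, 1 ≤ k → Laws (chains {q | ω ∈ A q} s k) k (constC Q s k)) ∧
      ∀ P : Finset ℤ[X], P.Nonempty → Separated P → (∀ p ∈ Q, ∃ r : ℤ, ¬ (p : ℤ) ∣ ∏ f ∈ P, f.eval r) →
        Laws (args {q | ω ∈ A q} P) P.card (const Q P)) := by
  classical
  refine ⟨?_, fun ℱ => ⟨?_, ?_⟩⟩
  · rintro ⟨hA, hi, hz, hp⟩
    exact ⟨Pool.Agent.N740.HK.gen hA, Pool.Agent.N740.HK.gen_meas hA, hz,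
      Pool.Agent.N957.SQ.Fin.indep_dens hA hi Q hQ hp⟩
  · rintro ⟨h1, h2, h3⟩
    have hs : Pool.Agent.N740.HK.HS μ ℱ A := ⟨h1, h2, fun n hn => by
      filter_upwards [h3 n hn] with ω hω
      rw [← Pool.Agent.N957.SQ.Fin.prod_inv]
      exact hω⟩
    refine ⟨h1, fun n hn => ?_, ?_⟩
    · obtain ⟨p, hp, _⟩ := hn
      exact absurd hp (Finset.notMem_empty p)
    · filter_upwards [Pool.Agent.N740.HK.hawk_dens hs] with ω hω
      rw [Finset.prod_empty]
      exact hω.mono_left inf_le_left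
  · rintro ⟨hA, hcop, hd⟩
    filter_upwards [Pool.Agent.N957.SQ.Fin.laws (μ := μ) hA Q hQ hcop hd] with ω g1
    have hgen : ∀ P : Finset ℤ[X], P.Nonempty → Separated P → (∀ p ∈ Q, ∃ r : ℤ, ¬ (p : ℤ) ∣ ∏ f ∈ P, f.eval r) →
        Laws (args {q | ω ∈ A q} P) P.card (const Q P) := by
      intro P h0 h1 h2
      have h3 := Pool.Agent.N957.SQ.Fin.BC_pos Q hQ P (fun f hf => (h1.1 f hf).1) h2
      obtain ⟨k1, k2, _, k4⟩ := g1 P h0 h1 h2
      rw [← one_div] at k4
      exact ⟨h3, k2, k1, k4⟩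
    refine ⟨fun s hs k hk => ?_, hgen⟩
    have h0 : (sys s k).Nonempty := by
      rw [← Finset.card_pos, sys_card]
      omega
    have h1 := hgen (sys s k) h0 (sys_sep s k) (sys_fixed Q hQ hs k)
    have e1 : args {q | ω ∈ A q} (sys s k) = chains {q | ω ∈ A q} s k := sys_args _ s k
    have e2 : const Q (sys s k) = constC Q s k := sys_const Q hQ s k
    rw [e1, e2, sys_card] at h1
    exact h1
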