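import Pool.Agent.N220.CF.Q4

/-!
# Prime trees with defects near linear forms in good approximations of almost every point

Chains of the first and of the second kind, and all other iterations of linear maps, at once: let a tree with the nodes `0, ...,
k + 1` be given, each node `i + 1` joined to a parent `par i ≤ i`, and integers `a_i`. The root has the value `n`, and the node
`i + 1` has the value `a_i` times the value of its parent, plus `h_i` (chains of the first kind: `a_i = 2`, `par i = i`,
`h_i = 1`; of the second kind: `h_i = -1`; both kinds starting from one prime: a tree with two branches). For almost every point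
`α` of `R^k`, all trees and `a_i`, all invertible integral matrices `M` and integral vectors `c` and all but finitely many
integral vectors `(q, p_1, ..., p_k)`, `q ≥ 1`, with `|q α_i - p_i| ≤ b q^(-1/k)`, EVERY integral vector `h` at a distance of at
most `log ^ W q` from `M (q, p) + c` has the property: if the polynomials at the nodes satisfy the obvious conditions, then all
nodes are prime for the expected number of `n`, in all windows of length at least `q / log ^ A q` up to `B q`. For `k = 1` this
holds along the convergents of almost every real number.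
-/

set_option autoImplicit false

namespace Pool.Agent.Results.MP_c183ae_nt.ConvergentTrees

open Finset Filter MeasureTheory
open Pool.Agent.N220.CF (Near conv vec Admissible HL node slope trees_all trees_conv)

/-- The value at a node is the polynomial `slope par a i * n + node par a h 0 i` in the value `n` at the root. -/
theorem node_polynomial (par : ℕ → ℕ) (a h : ℕ → ℤ) (n : ℤ) (i : ℕ) :
    node par a h n i = slope par a i * n + node par a h 0 i := Pool.Agent.N220.CF.node_eq par a h n i

/-- For the defects `h 0`, ..., `h k`, each at a distance of at most `log ^ W q` from the corresponding coordinate of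
`M (q, p_1, ..., p_k) + c`, the values at the nodes `0`, ..., `k + 1` of the tree obey the law of Hardy and Littlewood at the
scale `q`. Here `t = (p, q)`. -/
def Law {k : ℕ} (par : ℕ → ℕ) (a : ℕ → ℤ) (M : Matrix (Fin (k + 1)) (Fin (k + 1)) ℤ) (c : Fin (k + 1) → ℤ) (A B W : ℕ) (ε : ℝ)
    (t : (Fin k → ℤ) × ℕ) : Prop :=
  ∀ h : ℕ → ℤ, (∀ i : Fin (k + 1), |(h i : ℝ) - (((M.mulVec (vec t) i + c i : ℤ)) : ℝ)| ≤ Real.log t.2 ^ W) →
    Admissible (fun i : Fin (k + 2) => slope par a i) (fun i : Fin (k + 2) => node par a h 0 i) →
      HL ε A B t.2 (fun i : Fin (k + 2) => slope par a i) (fun i : Fin (k + 2) => node par a h 0 i)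

/-- **Prime trees with defects.** -/
theorem result :
    (∀ k : ℕ, 1 ≤ k → ∀ᵐ α : Fin k → ℝ, ∀ (par : ℕ → ℕ) (a : ℕ → ℤ) (M : Matrix (Fin (k + 1)) (Fin (k + 1)) ℤ)
      (c : Fin (k + 1) → ℤ) (A B W : ℕ) (ε : ℝ), M.det ≠ 0 → 0 < ε → ∀ b : ℝ,
        {t | Near b (1 / k) α t ∧ ¬ Law par a M c A B W ε t}.Finite) ∧
    ∀ᵐ ξ : ℝ, ∀ (par : ℕ → ℕ) (a : ℕ → ℤ) (M : Matrix (Fin 2) (Fin 2) ℤ) (c : Fin 2 → ℤ) (A B W : ℕ) (ε : ℝ), M.det ≠ 0 → 0 < ε →
      ∀ᶠ n : ℕ in atTop, Law par a M c A B W ε (conv ξ n) :=
  ⟨trees_all, trees_conv⟩

end Pool.Agent.Results.MP_c183ae_nt.ConvergentTrees
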