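import Pool.Agent.N798.T.Fi

/-!
# Prime chains and prime trees for almost every choice of the multipliers

A Cunningham chain is a chain of primes `q_0, …, q_k` with `q_{j+1} = 2 q_j ± 1`.  Here the multiplier
`2` is replaced by real multipliers: for almost every `(α_0, …, α_{k-1})` in `(0, ∞)^k` the number of
`n ≤ N` for which all the `k + 1` terms of the chain `q_0 = n`, `q_{j+1} = ⌊α_j q_j⌋ + b_j` are prime
is asymptotic to `N / (log N)^{k+1}`, simultaneously for all choices of the integer shifts `b_j`.
More generally the same is proved for arbitrary trees: every node `j + 1` has a parent `par j ≤ j` and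
carries the integer `⌊α_j q^{c_j}⌋ + b_j`, where `q` is the integer at the parent and `c_j > 0` is a
real exponent; and for every set `U` of nodes the number of `n ≤ N` with primes at all nodes of `U` is
asymptotic to `N / ∏_{v ∈ U} (C_v log N)`, where `C_v` is the product of the exponents on the path to
`v`.  The exceptional null set of multipliers depends only on the exponents.
-/

namespace Pool.Agent.Results.MP_c183ae_nt.MetricPrimeTrees

open Finset MeasureTheory Filter Topology

/-- a finite family of multipliers, as a sequence (the values from `k` on are never used) -/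
noncomputable def ext {k : ℕ} (α : Fin k → ℝ) (j : ℕ) : ℝ := if h : j < k then α ⟨j, h⟩ else 1

/-- the integer at the node `v` of the tree with parents `par` (`par j ≤ j` is the parent of `j + 1`):
the root `0` carries `n` and the node `j + 1` carries `⌊α_j q^{c_j}⌋ + b_j`, where `q` is the integer at
its parent (a negative value is replaced by `0`, which is not a prime) -/
noncomputable def node (par : ℕ → ℕ) (b : ℕ → ℤ) (c α : ℕ → ℝ) (n : ℕ) : ℕ → ℕ
  | 0 => n
  | j + 1 => if _h : par j ≤ j then (⌊α j * (node par b c α n (par j) : ℝ) ^ (c j)⌋ + b j).toNat else 0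

/-- the product of the exponents on the path from the root to the node `v` -/
noncomputable def expo (par : ℕ → ℕ) (c : ℕ → ℝ) : ℕ → ℝ
  | 0 => 1
  | j + 1 => if _h : par j ≤ j then expo par c (par j) * c j else 1

/-- the chain `q_0 = n`, `q_{j+1} = ⌊α_j q_j⌋ + b_j` (a negative value is replaced by `0`) -/
noncomputable def chain (b : ℕ → ℤ) (α : ℕ → ℝ) (n : ℕ) : ℕ → ℕ
  | 0 => n
  | j + 1 => (⌊α j * (chain b α n j : ℝ)⌋ + b j).toNat

lemma node_eq (par : ℕ → ℕ) (b : ℕ → ℤ) (c α : ℕ → ℝ) (n v : ℕ) :
    node par b c α n v = Pool.Agent.N798.T.nd par b c α n v := by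
  induction v using Nat.strong_induction_on with
  | _ v ih =>
    rcases v with _ | j
    · rw [node, Pool.Agent.N798.T.nd]
    · rw [node, Pool.Agent.N798.T.nd]
      split_ifs with h
      · rw [ih (par j) (by omega)]; rfl
      · rfl

lemma expo_eq (par : ℕ → ℕ) (c : ℕ → ℝ) (v : ℕ) : expo par c v = Pool.Agent.N798.T.ex par c v := by
  induction v using Nat.strong_induction_on with
  | _ v ih =>
    rcases v with _ | j
    · rw [expo, Pool.Agent.N798.T.ex]
    · rw [expo, Pool.Agent.N798.T.ex]
      split_ifs with h
      · rw [ih (par j) (by omega)]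
      · rfl

lemma chain_eq (b : ℕ → ℤ) (α : ℕ → ℝ) (n v : ℕ) : chain b α n v = node (fun j => j) b (fun _ => 1) α n v := by
  induction v with
  | zero => rw [chain, node]
  | succ j ih => rw [chain, node, dif_pos le_rfl, ih, Real.rpow_one]

lemma expo_chain (v : ℕ) : expo (fun j => j) (fun _ => 1) v = 1 := by
  induction v with
  | zero => rw [expo]
  | succ j ih => rw [expo, dif_pos le_rfl, ih, one_mul]

/-- the number of `1 ≤ n ≤ N` for which the integers at all nodes of `U` are primes -/
noncomputable def treeCount (par : ℕ → ℕ) (b : ℕ → ℤ) (c α : ℕ → ℝ) (U : Finset ℕ) (N : ℕ) : ℕ :=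
  #((Icc 1 N).filter fun n : ℕ => ∀ v ∈ U, (node par b c α n v).Prime)

/-- the number of `1 ≤ n ≤ N` for which the terms `q_0, …, q_k` of the chain are primes -/
noncomputable def chainCount (k : ℕ) (b : ℕ → ℤ) (α : ℕ → ℝ) (N : ℕ) : ℕ :=
  #((Icc 1 N).filter fun n : ℕ => ∀ v ≤ k, (chain b α n v).Prime)

/-- the number of `1 ≤ n ≤ N` for which all the `⌊α_i n^{c_i}⌋ + b_i` are primes -/
noncomputable def starCount {k : ℕ} (b : Fin k → ℤ) (c α : Fin k → ℝ) (N : ℕ) : ℕ :=
  #((Icc 1 N).filter fun n : ℕ => ∀ i, (⌊α i * (n : ℝ) ^ (c i)⌋ + b i).toNat.Prime)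

/-- the number of primes `p ≤ N` for which all the `⌊α_i p^{c_i}⌋ + b_i` are primes -/
noncomputable def primeStarCount {k : ℕ} (b : Fin k → ℤ) (c α : Fin k → ℝ) (N : ℕ) : ℕ :=
  #((Icc 1 N).filter fun p : ℕ => p.Prime ∧ ∀ i, (⌊α i * (p : ℝ) ^ (c i)⌋ + b i).toNat.Prime)

/-- **Metric prime trees, prime chains and prime stars.** -/
theorem result (k : ℕ) :
    (∀ c : ℕ → ℝ, (∀ j, 0 < c j) → ∀ᵐ α : Fin k → ℝ, (∀ i, 0 < α i) →
      ∀ (par : ℕ → ℕ) (b : ℕ → ℤ) (U : Finset ℕ), (∀ j, par j ≤ j) → U ⊆ range (k + 1) →
        Tendsto (fun N : ℕ => (treeCount par b c (ext α) U N : ℝ) /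
          (N / ∏ v ∈ U, (expo par c v * Real.log N))) atTop (𝓝 1)) ∧
    (∀ᵐ α : Fin k → ℝ, (∀ i, 0 < α i) → ∀ b : ℕ → ℤ,
        Tendsto (fun N : ℕ => (chainCount k b (ext α) N : ℝ) / (N / (Real.log N) ^ (k + 1))) atTop (𝓝 1)) ∧
    (∀ c : Fin k → ℝ, (∀ i, 0 < c i) → ∀ᵐ α : Fin k → ℝ, (∀ i, 0 < α i) → ∀ b : Fin k → ℤ,
        Tendsto (fun N : ℕ => (primeStarCount b c α N : ℝ) /
          (N / ((∏ i, c i) * (Real.log N) ^ (k + 1)))) atTop (𝓝 1) ∧
        Tendsto (fun N : ℕ => (starCount b c α N : ℝ) /
          (N / ((∏ i, c i) * (Real.log N) ^ k))) atTop (𝓝 1)) := by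
  have h1 : ∀ c : ℕ → ℝ, (∀ j, 0 < c j) → ∀ᵐ α : Fin k → ℝ, (∀ i, 0 < α i) →
      ∀ (par : ℕ → ℕ) (b : ℕ → ℤ) (U : Finset ℕ), (∀ j, par j ≤ j) → U ⊆ range (k + 1) →
        Tendsto (fun N : ℕ => (treeCount par b c (ext α) U N : ℝ) /
          (N / ∏ v ∈ U, (expo par c v * Real.log N))) atTop (𝓝 1) := by
    intro c hc
    have h2 := Pool.Agent.N798.T.main_all c hc k
    have hm : MeasurableSet {α : Fin k → ℝ | ∀ i, 0 < α i} := by
      rw [Set.ofPred_forall]
      exact MeasurableSet.iInter fun i => measurableSet_lt measurable_const (measurable_pi_apply i)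
    rw [ae_restrict_iff' hm] at h2
    filter_upwards [h2] with α hα hpos par b U hpar hU
    refine (hα hpos par b U hpar hU).congr fun N => ?_
    unfold treeCount
    simp_rw [node_eq, expo_eq]
    rw [div_div_eq_mul_div]
    rfl
  refine ⟨h1, ?_, ?_⟩
  · filter_upwards [h1 (fun _ => 1) fun _ => one_pos] with α hα hpos b
    have h2 := hα hpos (fun j => j) b (range (k + 1)) (fun j => le_rfl) subset_rfl
    refine h2.congr fun N => ?_
    unfold treeCount chainCount
    congr 1
    · congr 2
      refine Finset.filter_congr fun n _ => ?_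
      constructor
      · intro h v hv
        rw [chain_eq]
        exact h v (Finset.mem_range.mpr (by omega))
      · intro h v hv
        rw [← chain_eq]
        exact h v (by have := Finset.mem_range.mp hv; omega)
    · simp_rw [expo_chain, one_mul]
      rw [Finset.prod_const, Finset.card_range]
  · intro c hc
    have hc' : ∀ j : ℕ, 0 < ext c j := by
      intro j
      unfold ext
      split_ifs with h
      · exact hc _
      · exact one_pos
    filter_upwards [h1 (ext c) hc'] with α hα hpos b
    have hn0 : ∀ n : ℕ, node (fun _ => 0) (fun j => if h : j < k then b ⟨j, h⟩ else 0) (ext c) (ext α) n 0 = n :=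
      fun n => by rw [node]
    have hn1 : ∀ (n : ℕ) (i : Fin k), node (fun _ => 0) (fun j => if h : j < k then b ⟨j, h⟩ else 0) (ext c) (ext α) n
        (i.1 + 1) = (⌊α i * (n : ℝ) ^ (c i)⌋ + b i).toNat := by
      intro n i
      rw [node, dif_pos (Nat.zero_le _), hn0]
      unfold ext
      rw [dif_pos i.2, dif_pos i.2, dif_pos i.2]
    have he1 : ∀ i : Fin k, expo (fun _ => 0) (ext c) (i.1 + 1) = c i := by
      intro i
      rw [expo, dif_pos (Nat.zero_le _), expo, one_mul]
      unfold ext
      rw [dif_pos i.2]
    constructor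
    · have h2 := hα hpos (fun _ => 0) (fun j => if h : j < k then b ⟨j, h⟩ else 0) (range (k + 1))
        (fun j => Nat.zero_le _) subset_rfl
      refine h2.congr fun N => ?_
      unfold treeCount primeStarCount
      congr 1
      · congr 2
        refine Finset.filter_congr fun n _ => ?_
        constructor
        · intro h
          refine ⟨by simpa only [hn0] using h 0 (Finset.mem_range.mpr (by omega)), fun i => ?_⟩
          rw [← hn1]
          exact h _ (Finset.mem_range.mpr (by omega))
        · rintro ⟨hp, h⟩ v hv
          rcases v with _ | j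
          · rw [hn0]; exact hp
          · have hj : j < k := by have := Finset.mem_range.mp hv; omega
            have := hn1 n ⟨j, hj⟩
            dsimp only at this
            rw [this]
            exact h _
      · congr 1
        rw [Finset.prod_range_succ', expo, one_mul, Finset.prod_mul_distrib, Finset.prod_const, Finset.card_range,
          Finset.prod_range fun j => expo (fun _ => 0) (ext c) (j + 1), Finset.prod_congr rfl fun i _ => he1 i]
        ring
    · have h2 := hα hpos (fun _ => 0) (fun j => if h : j < k then b ⟨j, h⟩ else 0) (Finset.Icc 1 k)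
        (fun j => Nat.zero_le _) (fun j hj => by
          rw [Finset.mem_Icc] at hj
          exact Finset.mem_range.mpr (by omega))
      refine h2.congr fun N => ?_
      unfold treeCount starCount
      congr 1
      · congr 2
        refine Finset.filter_congr fun n _ => ?_
        constructor
        · intro h i
          rw [← hn1]
          exact h _ (Finset.mem_Icc.mpr ⟨by omega, by omega⟩)
        · intro h v hv
          rw [Finset.mem_Icc] at hv
          rcases v with _ | j
          · omega
          · have hj : j < k := by omega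
            have := hn1 n ⟨j, hj⟩
            dsimp only at this
            rw [this]
            exact h _
      · congr 1
        have e1 : Finset.Icc 1 k = (range k).image (fun j => j + 1) := by
          ext j
          simp only [Finset.mem_Icc, Finset.mem_image, Finset.mem_range]
          constructor
          · rintro ⟨h1, h2⟩
            exact ⟨j - 1, by omega, by omega⟩
          · rintro ⟨i, hi, rfl⟩
            omega
        rw [e1, Finset.prod_image (fun a _ b _ h => by simpa using h), Finset.prod_mul_distrib, Finset.prod_const,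
          Finset.card_range,
          Finset.prod_range fun j => expo (fun _ => 0) (ext c) (j + 1), Finset.prod_congr rfl fun i _ => he1 i]

end Pool.Agent.Results.MP_c183ae_nt.MetricPrimeTrees
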